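import Pool.Agent.Helper93.T53.StD

/-!
# Project T53, module LED: solutions of the relations with given leading forms, even degree

Model: `Pool/Agent/Helper44/TH3/M_Led.lean`.
-/

set_option autoImplicit false

namespace Pool.Agent.Helper60.T53

open Pool.Agent.Helper93.T53
open Pool.Agent.Helper78.W3 (tr Fn3 op3 Wd3 dX dY oN Lw bb3 S3Trm S3Low0 S3Lw1 S3Bb)

private theorem qT_eq {q q' : ℕ} (f : Fin 5 → Fn3 q q') (b : Fin 4 → Fn3 q q') : qT f b =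
    (op3 1 1 0 1 (f 0) - f 0) + (f 1 - op3 5 1 5 10 (f 1)) + (f 2 - op3 65 12 15 25 (f 2)) +
    (f 3 - op3 70 (-13) 15 (-25) (f 3)) + (f 4 - op3 10 1 5 5 (f 4)) +
    (b 0 - op3 20 3 (-15) (-20) (b 0)) + (b 1 - op3 20 (-3) 15 (-20) (b 1)) +
    (b 2 - op3 20 (-9) 5 (-20) (b 2)) + (b 3 - op3 25 (-14) 5 (-25) (b 3)) := rfl

theorem hLed (_ht : S3Trm) (hl : S3Low0) (h1 : S3Lw1) (hw : TLwt) (hb : S3Bb)
    (hs : TSol) (hu : TSur) : TLed := by
  intro r s al be u hal hbe hev u5 u6 u7 u8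
  obtain ⟨-, -, -, -, wmono, -, ldx, ldy, -⟩ := hl r s
  obtain ⟨b1, -⟩ := hb r s
  obtain ⟨-, -, -, -, lN, -⟩ := h1 r s
  obtain ⟨-, -, -, we, -, wA, w1, w2, w3, w4, s1, s2, s3, s4⟩ := hw r s
  have hal' : (al : ℤ) < 3 ^ r := by exact_mod_cast hal
  have hbe' : (be : ℤ) < 3 ^ s := by exact_mod_cast hbe
  obtain ⟨d, hd⟩ : ∃ d : ℤ, d = (al : ℤ) + be := ⟨_, rfl⟩
  have hde : Even d := by
    obtain ⟨m, hm⟩ := hev
    exact ⟨(m : ℤ), by rw [hd]; exact_mod_cast hm⟩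
  have hodd : Odd (d - 1) := hde.sub_odd odd_one
  -- operators of the form `oN * L`, `L` the identity modulo lower degree
  have key : ∀ O L : Module.End (ZMod 3) (Fn3 (3 ^ r) (3 ^ s)),
      (∀ (k : ℤ) (F : Fn3 (3 ^ r) (3 ^ s)), F ∈ Wd3 k → L F - F ∈ Wd3 (k - 1)) →
      Lw (O - oN * L) 2 → (∀ (k : ℤ) (F : Fn3 (3 ^ r) (3 ^ s)), F ∈ Wd3 k → O F ∈ Wd3 k) ∧
        ∀ (k : ℤ) (F : Fn3 (3 ^ r) (3 ^ s)), Even k → F ∈ Wd3 k → O F - F ∈ Wd3 (k - 1) := by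
    intro O L hL hO
    have e : ∀ F : Fn3 (3 ^ r) (3 ^ s), O F = (O - oN * L : Module.End (ZMod 3) (Fn3 (3 ^ r) (3 ^ s))) F + oN F + oN (L F - F) := by
      intro F
      simp only [LinearMap.sub_apply, Module.End.mul_apply, map_sub]
      abel
    have g1 : ∀ (k : ℤ) (F : Fn3 (3 ^ r) (3 ^ s)), F ∈ Wd3 k → (O - oN * L : Module.End (ZMod 3) (Fn3 (3 ^ r) (3 ^ s))) F ∈ Wd3 (k - 1) :=
      fun k F hF => wmono _ _ (by linarith : k - 2 ≤ k - 1) (hO k F hF)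
    have g2 : ∀ (k : ℤ) (F : Fn3 (3 ^ r) (3 ^ s)), F ∈ Wd3 k → oN (L F - F) ∈ Wd3 (k - 1) := by
      intro k F hF
      have h := lN _ _ (hL k F hF)
      rwa [sub_zero] at h
    have g3 : ∀ (k : ℤ) (F : Fn3 (3 ^ r) (3 ^ s)), F ∈ Wd3 k → oN F ∈ Wd3 k := by
      intro k F hF
      have h := lN _ _ hF
      rwa [sub_zero] at h
    refine ⟨fun k F hF => ?_, fun k F hk hF => ?_⟩
    · rw [e]
      exact Submodule.add_mem _ (Submodule.add_mem _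
        (wmono _ _ (by linarith : k - 1 ≤ k) (g1 k F hF)) (g3 k F hF))
        (wmono _ _ (by linarith : k - 1 ≤ k) (g2 k F hF))
    · have e' : O F - F = (O - oN * L : Module.End (ZMod 3) (Fn3 (3 ^ r) (3 ^ s))) F + (oN F - F) + oN (L F - F) := by
        rw [e F]
        abel
      rw [e']
      exact Submodule.add_mem _ (Submodule.add_mem _ (g1 k F hF) (we k F hF hk)) (g2 k F hF)
  have key1 : ∀ O : Module.End (ZMod 3) (Fn3 (3 ^ r) (3 ^ s)),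
      Lw (O - oN) 2 → (∀ (k : ℤ) (F : Fn3 (3 ^ r) (3 ^ s)), F ∈ Wd3 k → O F ∈ Wd3 k) ∧
        ∀ (k : ℤ) (F : Fn3 (3 ^ r) (3 ^ s)), Even k → F ∈ Wd3 k → O F - F ∈ Wd3 (k - 1) := by
    intro O hO
    refine key O 1 (fun k F _ => ?_) ?_
    · rw [Module.End.one_apply, sub_self]
      exact Submodule.zero_mem _
    · rwa [mul_one]
  have l1 : ∀ (k : ℤ) (F : Fn3 (3 ^ r) (3 ^ s)), F ∈ Wd3 k →
      (1 - dX - dY : Module.End (ZMod 3) (Fn3 (3 ^ r) (3 ^ s))) F - F ∈ Wd3 (k - 1) := by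
    intro k F hF
    have e : (1 - dX - dY : Module.End (ZMod 3) (Fn3 (3 ^ r) (3 ^ s))) F - F = -dX F - dY F := by
      simp only [LinearMap.sub_apply, Module.End.one_apply]
      abel
    rw [e]
    exact Submodule.sub_mem _ (Submodule.neg_mem _ (ldx k F hF)) (ldy k F hF)
  have l3 : ∀ (k : ℤ) (F : Fn3 (3 ^ r) (3 ^ s)), F ∈ Wd3 k →
      (1 - dX : Module.End (ZMod 3) (Fn3 (3 ^ r) (3 ^ s))) F - F ∈ Wd3 (k - 1) := by
    intro k F hF
    have e : (1 - dX : Module.End (ZMod 3) (Fn3 (3 ^ r) (3 ^ s))) F - F = -dX F := by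
      simp only [LinearMap.sub_apply, Module.End.one_apply]
      abel
    rw [e]
    exact Submodule.neg_mem _ (ldx k F hF)
  have l3' : ∀ (k : ℤ) (F : Fn3 (3 ^ r) (3 ^ s)), F ∈ Wd3 k →
      (1 - dY : Module.End (ZMod 3) (Fn3 (3 ^ r) (3 ^ s))) F - F ∈ Wd3 (k - 1) := by
    intro k F hF
    have e : (1 - dY : Module.End (ZMod 3) (Fn3 (3 ^ r) (3 ^ s))) F - F = -dY F := by
      simp only [LinearMap.sub_apply, Module.End.one_apply]
      abel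
    rw [e]
    exact Submodule.neg_mem _ (ldy k F hF)
  have l4 : ∀ (k : ℤ) (F : Fn3 (3 ^ r) (3 ^ s)), F ∈ Wd3 k →
      (1 + dX + dY : Module.End (ZMod 3) (Fn3 (3 ^ r) (3 ^ s))) F - F ∈ Wd3 (k - 1) := by
    intro k F hF
    have e : (1 + dX + dY : Module.End (ZMod 3) (Fn3 (3 ^ r) (3 ^ s))) F - F = dX F + dY F := by
      simp only [LinearMap.add_apply, Module.End.one_apply]
      abel
    rw [e]
    exact Submodule.add_mem _ (ldx k F hF) (ldy k F hF)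
  have k1 := (key _ _ l1 w1).2
  have k2 := (key1 _ w2).2
  have k3 := (key _ _ l3 w3).2
  have k4 := (key _ _ l4 w4).2
  have t1 := (key1 _ s1).1
  have t2 := (key1 _ s2).1
  have t3 := (key _ _ l3' s3).1
  have t4 := (key _ _ l4 s4).1
  have kA : ∀ (k : ℤ) (F : Fn3 (3 ^ r) (3 ^ s)), F ∈ Wd3 k → op3 1 1 0 1 F - F ∈ Wd3 (k - 1) := by
    intro k F hF
    have e : op3 1 1 0 1 F - F =
        (op3 1 1 0 1 - 1 - dX : Module.End (ZMod 3) (Fn3 (3 ^ r) (3 ^ s))) F + dX F := by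
      simp only [LinearMap.sub_apply, Module.End.one_apply]
      abel
    rw [e]
    exact Submodule.add_mem _ (wmono _ _ (by linarith : k - 2 ≤ k - 1) (wA k F hF)) (ldx k F hF)
  obtain ⟨P, hP⟩ : ∃ P : Fn3 (3 ^ r) (3 ^ s), P = bb3 al be := ⟨_, rfl⟩
  have hPW : P ∈ Wd3 d := by
    rw [hP, hd]
    exact b1 al be hal hbe
  -- the first approximation and its defect
  obtain ⟨f, hf0⟩ : ∃ f : Fin 5 → Fn3 (3 ^ r) (3 ^ s), ∀ i : Fin 5,
      f i = u (Fin.castLE (by norm_num) i) • P := ⟨_, fun i => rfl⟩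
  have hfW : ∀ i, f i ∈ Wd3 d := fun i => by
    rw [hf0]
    exact Submodule.smul_mem _ _ hPW
  have hEW : qT f 0 ∈ Wd3 (d - 1) := by
    have e : qT f 0 = (op3 1 1 0 1 (f 0) - f 0) - (op3 5 1 5 10 (f 1) - f 1) -
        (op3 65 12 15 25 (f 2) - f 2) - (op3 70 (-13) 15 (-25) (f 3) - f 3) -
        (op3 10 1 5 5 (f 4) - f 4) := by
      rw [qT_eq]
      simp only [Pi.zero_apply, map_zero, sub_zero, add_zero]
      abel
    rw [e]
    exact Submodule.sub_mem _ (Submodule.sub_mem _ (Submodule.sub_mem _ (Submodule.sub_mem _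
      (kA d _ (hfW 0)) (k1 d _ hde (hfW 1))) (k2 d _ hde (hfW 2))) (k3 d _ hde (hfW 3)))
      (k4 d _ hde (hfW 4))
  obtain ⟨g, b, -, -, hgb, hq⟩ := hu r s (d - 1) (qT f 0) (by linarith) hEW
  obtain ⟨hg, hb'⟩ := hgb hodd
  have hz : qT (f - g) (-b) = (0 : Fn3 (3 ^ r) (3 ^ s)) := by
    have e : qT (f - g) (-b) = qT f 0 - qT g b := by
      rw [qT_eq, qT_eq, qT_eq]
      simp only [Pi.sub_apply, Pi.neg_apply, Pi.zero_apply, map_sub, map_neg, map_zero]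
      abel
    rw [e, hq, sub_self]
  have hm : ∀ {F : Fn3 (3 ^ r) (3 ^ s)}, F ∈ Wd3 (d - 1) → F ∈ Wd3 d :=
    fun hF => wmono _ _ (by linarith : d - 1 ≤ d) hF
  have m : ∀ i, (f - g) i ∈ Wd3 d := fun i => Submodule.sub_mem _ (hfW i) (hm (hg i))
  have mb : ∀ i, (-b) i ∈ Wd3 (d - 1) := fun i => Submodule.neg_mem _ (hb' i)
  have c0 : (-b) 0 - op3 20 3 (-15) (-20) ((-b) 0) ∈ Wd3 (d - 1) :=
    Submodule.sub_mem _ (mb 0) (t1 _ _ (mb 0))
  have c1 : (-b) 1 - op3 20 (-3) 15 (-20) ((-b) 1) ∈ Wd3 (d - 1) :=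
    Submodule.sub_mem _ (mb 1) (t2 _ _ (mb 1))
  have c2 : (-b) 2 - op3 20 (-9) 5 (-20) ((-b) 2) ∈ Wd3 (d - 1) :=
    Submodule.sub_mem _ (mb 2) (t3 _ _ (mb 2))
  have c3 : (-b) 3 - op3 25 (-14) 5 (-25) ((-b) 3) ∈ Wd3 (d - 1) :=
    Submodule.sub_mem _ (mb 3) (t4 _ _ (mb 3))
  have ml : ∀ i : Fin 5, (f - g) i - u (Fin.castLE (by norm_num) i) • bb3 al be ∈ Wd3 (d - 1) := by
    intro i
    have e : (f - g) i - u (Fin.castLE (by norm_num) i) • bb3 al be = -g i := by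
      rw [Pi.sub_apply, hf0, ← hP]
      abel
    rw [e]
    exact Submodule.neg_mem _ (hg i)
  have z : ∀ (c : ZMod 3) (F : Fn3 (3 ^ r) (3 ^ s)), c = 0 → F ∈ Wd3 (d - 1) →
      F - c • bb3 al be ∈ Wd3 (d - 1) := by
    intro c F hc hF
    rw [hc, zero_smul, sub_zero]
    exact hF
  refine ⟨solT (f - g) (-b), hs (ZMod 3) _ r s _ _ fun x y => congrFun (congrFun hz x) y, ?_, ?_⟩
  · rw [← hd]
    intro i
    fin_cases i
    · exact m 0
    · exact m 1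
    · exact m 2
    · exact m 3
    · exact m 4
    · exact hm c0
    · exact hm c1
    · exact hm c2
    · exact hm c3
  · rw [← hd]
    intro i
    fin_cases i
    · exact ml 0
    · exact ml 1
    · exact ml 2
    · exact ml 3
    · exact ml 4
    · exact z _ _ u5 c0
    · exact z _ _ u6 c1
    · exact z _ _ u7 c2
    · exact z _ _ u8 c3

end Pool.Agent.Helper60.T53
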